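import Mathlib
import Pool.Agent.H43.G.R_seed8.H386R2.Artin.Stubs
import Pool.Agent.H43.G.R_seed8.Helper112.MultLS

/-! T1 (`BadCount`): large sieve for an arbitrary set of primes, through `r`-th powers. -/

namespace Pool.Agent.H386R2.Artin

open Finset
open scoped Nat

namespace T1

/-- the number of `r`-tuples from `E` with product `n` -/
def cc (E : Finset ℕ) (r n : ℕ) : ℕ :=
  #{v ∈ Fintype.piFinset (fun _ : Fin r => E) | ∏ i, v i = n}

lemma maps_to (E : Finset ℕ) (y r : ℕ) (hE : ∀ q ∈ E, q.Prime ∧ q ≤ y) :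
    ∀ v ∈ Fintype.piFinset (fun _ : Fin r => E), ∏ i, v i ∈ Icc 1 (y ^ r) := by
  intro v hv
  rw [Fintype.mem_piFinset] at hv
  rw [mem_Icc]
  refine ⟨Nat.one_le_iff_ne_zero.mpr (prod_ne_zero_iff.mpr fun i _ => (hE _ (hv i)).1.ne_zero), ?_⟩
  calc ∏ i, v i ≤ ∏ _i : Fin r, y := prod_le_prod' fun i _ => (hE _ (hv i)).2
    _ = y ^ r := by simp

lemma sum_pow_eq (E : Finset ℕ) (y r : ℕ) (hE : ∀ q ∈ E, q.Prime ∧ q ≤ y) (p : ℕ)
    (χ : DirichletCharacter ℂ p) :
    (∑ q ∈ E, χ (q : ZMod p)) ^ r = ∑ n ∈ Icc 1 (y ^ r), (cc E r n : ℂ) * χ (n : ZMod p) := by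
  have h1 : (∑ q ∈ E, χ (q : ZMod p)) ^ r =
      ∑ v ∈ Fintype.piFinset (fun _ : Fin r => E), ∏ i, χ (v i : ZMod p) := by
    have := Finset.prod_univ_sum (fun _ : Fin r => E) (fun _ (q : ℕ) => χ (q : ZMod p))
    rw [← this]
    simp
  have h2 : ∀ v ∈ Fintype.piFinset (fun _ : Fin r => E),
      ∏ i, χ (v i : ZMod p) = χ ((∏ i, v i : ℕ) : ZMod p) := by
    intro v _
    rw [Nat.cast_prod, map_prod]
  rw [h1, sum_congr rfl h2, ← Finset.sum_fiberwise_of_maps_to (maps_to E y r hE)]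
  apply sum_congr rfl
  intro n _
  rw [sum_congr rfl (g := fun _ => χ (n : ZMod p))]
  · rw [sum_const, nsmul_eq_mul]; rfl
  · intro v hv
    rw [mem_filter] at hv
    rw [hv.2]

lemma cc_le (E : Finset ℕ) (r n : ℕ) (hE : ∀ q ∈ E, q.Prime) : cc E r n ≤ r ! := by
  classical
  unfold cc
  set S := (Fintype.piFinset (fun _ : Fin r => E)).filter (fun v => ∏ i, v i = n) with hS
  have key : ∀ v ∈ S, List.Perm (List.ofFn v) n.primeFactorsList := by
    intro v hv
    rw [hS, mem_filter, Fintype.mem_piFinset] at hv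
    apply Nat.primeFactorsList_unique
    · rw [List.prod_ofFn]; exact hv.2
    · intro p hp
      rw [List.mem_ofFn] at hp
      obtain ⟨i, rfl⟩ := hp
      exact hE _ (hv.1 i)
  rcases S.eq_empty_or_nonempty with h | ⟨v0, hv0⟩
  · rw [h]; simp
  · have hlen : n.primeFactorsList.length = r := by
      rw [← (key v0 hv0).length_eq, List.length_ofFn]
    calc #S ≤ #(n.primeFactorsList.permutations.toFinset) := by
          apply card_le_card_of_injOn (fun v => List.ofFn v)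
          · intro v hv
            simp only [mem_coe, List.mem_toFinset, List.mem_permutations]
            exact key v hv
          · intro v _ w _ hvw
            exact List.ofFn_injective hvw
      _ ≤ n.primeFactorsList.permutations.length := List.toFinset_card_le _
      _ = r ! := by rw [List.length_permutations, hlen]

lemma sum_cc (E : Finset ℕ) (y r : ℕ) (hE : ∀ q ∈ E, q.Prime ∧ q ≤ y) :
    ∑ n ∈ Icc 1 (y ^ r), cc E r n = #E ^ r := by
  have := Finset.card_eq_sum_card_fiberwise (maps_to E y r hE)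
  unfold cc
  rw [← this]
  simp

lemma sum_cc_sq (E : Finset ℕ) (y r : ℕ) (hE : ∀ q ∈ E, q.Prime ∧ q ≤ y) :
    ∑ n ∈ Icc 1 (y ^ r), ‖(cc E r n : ℂ)‖ ^ 2 ≤ (r ! : ℝ) * (#E : ℝ) ^ r := by
  have h1 : ((∑ n ∈ Icc 1 (y ^ r), cc E r n : ℕ) : ℝ) = (#E : ℝ) ^ r := by
    rw [sum_cc E y r hE]; push_cast; rfl
  rw [← h1, Nat.cast_sum, mul_sum]
  apply sum_le_sum
  intro n _
  rw [Complex.norm_natCast, sq]
  apply mul_le_mul_of_nonneg_right _ (Nat.cast_nonneg _)
  exact_mod_cast cc_le E r n fun q hq => (hE q hq).1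

lemma prim_of_prime {p : ℕ} (hp : p.Prime) {χ : DirichletCharacter ℂ p} (hχ : χ ≠ 1) :
    χ.IsPrimitive := by
  have : NeZero p := ⟨hp.ne_zero⟩
  rw [DirichletCharacter.isPrimitive_def]
  rcases (Nat.dvd_prime hp).mp (DirichletCharacter.conductor_dvd_level χ) with h | h
  · exact absurd (DirichletCharacter.eq_one_iff_conductor_eq_one.mpr h) hχ
  · exact h

end T1

open T1 in
theorem badCount : BadCount := by
  classical
  intro E y x r M hE hM hx
  have hLS := Helper112.mult_large_sieve (y ^ r) x (fun n => (cc E r n : ℂ))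
  set bad := (PP x).filter (fun p => ¬ Good E M p) with hbad
  have hchoose : ∀ p ∈ bad, ∃ χ : DirichletCharacter ℂ p, χ ≠ 1 ∧
      M < ‖∑ q ∈ E, χ (q : ZMod p)‖ := by
    intro p hp
    rw [hbad, mem_filter] at hp
    have := hp.2
    unfold Good at this
    push Not at this
    exact this
  have hpp : ∀ p ∈ bad, p.Prime ∧ p ≤ x := by
    intro p hp
    rw [hbad, mem_filter, PP, mem_filter, mem_range] at hp
    exact ⟨hp.1.2, by omega⟩
  have hsub : bad ⊆ Icc 1 x := by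
    intro p hp
    rw [mem_Icc]
    exact ⟨(hpp p hp).1.one_le, (hpp p hp).2⟩
  have hlow : (bad.card : ℝ) * M ^ (2 * r) ≤ ∑ f ∈ Icc 1 x, ((f : ℝ) / (Nat.totient f : ℝ)) *
      ∑ χ ∈ (univ : Finset (DirichletCharacter ℂ f)).filter (fun χ => χ.IsPrimitive),
        ‖∑ n ∈ Icc 1 (y ^ r), (cc E r n : ℂ) * χ (n : ZMod f)‖ ^ 2 := by
    rw [← nsmul_eq_mul, ← sum_const]
    refine le_trans (sum_le_sum ?_) (sum_le_sum_of_subset_of_nonneg hsub ?_)
    · intro p hp
      obtain ⟨χ, hχ1, hχM⟩ := hchoose p hp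
      have hprim := prim_of_prime (hpp p hp).1 hχ1
      have h1 : M ^ (2 * r) ≤ ‖∑ n ∈ Icc 1 (y ^ r), (cc E r n : ℂ) * χ (n : ZMod p)‖ ^ 2 := by
        rw [← sum_pow_eq E y r hE p χ, norm_pow, ← pow_mul, mul_comm r 2]
        exact pow_le_pow_left₀ hM.le hχM.le _
      have h2 : ‖∑ n ∈ Icc 1 (y ^ r), (cc E r n : ℂ) * χ (n : ZMod p)‖ ^ 2 ≤
          ∑ χ ∈ (univ : Finset (DirichletCharacter ℂ p)).filter (fun χ => χ.IsPrimitive),
            ‖∑ n ∈ Icc 1 (y ^ r), (cc E r n : ℂ) * χ (n : ZMod p)‖ ^ 2 :=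
        single_le_sum (f := fun χ : DirichletCharacter ℂ p =>
          ‖∑ n ∈ Icc 1 (y ^ r), (cc E r n : ℂ) * χ (n : ZMod p)‖ ^ 2)
          (fun _ _ => sq_nonneg _) (mem_filter.mpr ⟨mem_univ _, hprim⟩)
      have h3 : (1 : ℝ) ≤ (p : ℝ) / (Nat.totient p : ℝ) := by
        have h0 : (0 : ℝ) < (Nat.totient p : ℝ) := by
          exact_mod_cast Nat.totient_pos.mpr (hpp p hp).1.pos
        rw [le_div_iff₀ h0, one_mul]
        exact_mod_cast Nat.totient_le p
      calc M ^ (2 * r) ≤ _ := h1.trans h2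
        _ ≤ _ := le_mul_of_one_le_left (sum_nonneg fun _ _ => sq_nonneg _) h3
    · intro f _ _
      exact mul_nonneg (div_nonneg (Nat.cast_nonneg _) (Nat.cast_nonneg _))
        (sum_nonneg fun _ _ => sq_nonneg _)
  have hx' : ((x : ℝ)) ^ 2 ≤ (y : ℝ) ^ r := by exact_mod_cast hx
  calc (bad.card : ℝ) * M ^ (2 * r)
      ≤ 6 * (((y ^ r : ℕ) : ℝ) + (x : ℝ) ^ 2) *
        ∑ n ∈ Icc 1 (y ^ r), ‖(cc E r n : ℂ)‖ ^ 2 := by
        refine hlow.trans ?_
        convert hLS using 1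
    _ ≤ 6 * ((y : ℝ) ^ r + (y : ℝ) ^ r) * ((r ! : ℝ) * (#E : ℝ) ^ r) := by
        apply mul_le_mul _ (sum_cc_sq E y r hE) (sum_nonneg fun _ _ => sq_nonneg _) (by positivity)
        push_cast
        linarith
    _ = 12 * (y : ℝ) ^ r * (r ! : ℝ) * (#E : ℝ) ^ r := by ring

end Pool.Agent.H386R2.Artin
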